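import Pool.Agent.H261R3.LH.Stmts

/-! Project LH: assembled maps are Lipschitz (`TaskAsm`). -/

set_option autoImplicit false

open UpperHalfPlane

namespace Pool.Agent.H261R3.LH

namespace AsmT

variable {S : Type} [MetricSpace S] {C : ℝ} {G : ℤ → ℤ → ℝ → ℝ → S}

/-- the row number `j` -/
noncomputable def row (G : ℤ → ℤ → ℝ → ℝ → S) (j : ℤ) (v h : ℝ) : S := G j ⌊v⌋ (Int.fract v) h

theorem row_cell (hG : Good C G) (j k : ℤ) (h v : ℝ) (hv : (k : ℝ) ≤ v) (hv' : v ≤ k + 1) :
    row G j v h = G j k (v - k) h := by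
  rcases hv'.eq_or_lt with e | e
  · have e' : v = ((k + 1 : ℤ) : ℝ) := by rw [e]; push_cast; ring
    unfold row
    rw [e', Int.floor_intCast, Int.fract_intCast, ← hG.lr]
    congr 1
    push_cast
    ring
  · have h1 : ⌊v⌋ = k := Int.floor_eq_iff.2 ⟨hv, e⟩
    unfold row
    rw [Int.fract, h1]

theorem cell_lip (hG : Good C G) (j k : ℤ) (h v v' : ℝ) (h1 : (k : ℝ) ≤ v) (h2 : v ≤ v')
    (h3 : v' ≤ k + 1) : dist (row G j v h) (row G j v' h) ≤ C * (v' - v) := by
  rw [row_cell hG j k h v h1 (h2.trans h3), row_cell hG j k h v' (h1.trans h2) h3]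
  have := hG.ls j k h (v - k) (v' - k)
  refine this.trans (le_of_eq ?_)
  rw [abs_sub_comm, abs_of_nonneg (by linarith)]
  ring

theorem row_lip_aux (hG : Good C G) (j : ℤ) (h : ℝ) : ∀ (n : ℕ) (v v' : ℝ), v ≤ v' →
    v' ≤ ⌊v⌋ + 1 + n → dist (row G j v h) (row G j v' h) ≤ C * (v' - v)
  | 0, v, v', h1, h2 => by
    refine cell_lip hG j ⌊v⌋ h v v' (Int.floor_le v) h1 ?_
    simpa using h2
  | n + 1, v, v', h1, h2 => by
    by_cases h3 : v' ≤ ⌊v⌋ + 1 + n
    · exact row_lip_aux hG j h n v v' h1 h3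
    · push Not at h3
      have h4 : v ≤ ((⌊v⌋ + 1 + n : ℤ) : ℝ) := by
        push_cast
        have := Int.lt_floor_add_one v
        have hn : (0 : ℝ) ≤ n := Nat.cast_nonneg n
        linarith
      have h5 := row_lip_aux hG j h n v ((⌊v⌋ + 1 + n : ℤ) : ℝ) h4 (by push_cast; exact le_rfl)
      have h6 := cell_lip hG j (⌊v⌋ + 1 + n) h ((⌊v⌋ + 1 + n : ℤ) : ℝ) v' le_rfl
        (by push_cast; exact h3.le) (by push_cast at h2 ⊢; linarith)
      calc dist (row G j v h) (row G j v' h) ≤ _ := dist_triangle _ _ _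
        _ ≤ _ := add_le_add h5 h6
        _ = C * (v' - v) := by ring

theorem row_lip (hG : Good C G) (j : ℤ) (h v v' : ℝ) :
    dist (row G j v h) (row G j v' h) ≤ C * |v - v'| := by
  have key : ∀ v v' : ℝ, v ≤ v' → dist (row G j v h) (row G j v' h) ≤ C * (v' - v) := by
    intro v v' hv
    obtain ⟨n, hn⟩ := exists_nat_ge (v' - (⌊v⌋ + 1))
    exact row_lip_aux hG j h n v v' hv (by linarith)
  rcases le_total v v' with hv | hv
  · rw [abs_sub_comm, abs_of_nonneg (by linarith)]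
    exact key v v' hv
  · rw [abs_of_nonneg (by linarith), dist_comm]
    exact key v' v hv

theorem row_up (hG : Good C G) (j : ℤ) (v : ℝ) : row G j (2 * v) 1 = row G (j + 1) v 0 := by
  have h0 := Int.fract_nonneg v
  have h1 := Int.fract_lt_one v
  have h2 : v = ⌊v⌋ + Int.fract v := (Int.floor_add_fract v).symm
  by_cases h : Int.fract v < 1 / 2
  · have h3 : ⌊2 * v⌋ = 2 * ⌊v⌋ := by
      rw [Int.floor_eq_iff]
      push_cast
      constructor <;> linarith
    have h4 : Int.fract (2 * v) = 2 * Int.fract v := by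
      rw [Int.fract, h3]
      push_cast
      rw [Int.fract]
      ring
    unfold row
    rw [h4, h3, hG.tl j _ _ (by linarith) (by linarith)]
    congr 1
    ring
  · push Not at h
    have h3 : ⌊2 * v⌋ = 2 * ⌊v⌋ + 1 := by
      rw [Int.floor_eq_iff]
      push_cast
      constructor <;> linarith
    have h4 : Int.fract (2 * v) = 2 * Int.fract v - 1 := by
      rw [Int.fract, h3]
      push_cast
      rw [Int.fract]
      ring
    unfold row
    rw [h4, h3, hG.tr j _ _ (by linarith) (by linarith)]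
    congr 1
    ring

/-- the value at the point `x + i y` -/
noncomputable def av (G : ℤ → ℤ → ℝ → ℝ → S) (x y : ℝ) : S :=
  row G (Int.log 2 y) (x / 2 ^ (Int.log 2 y)) (y / 2 ^ (Int.log 2 y) - 1)

theorem asm_eq (z : ℍ) : asm G z = av G z.re z.im := rfl

theorem log_le (y : ℝ) (hy : 0 < y) : (2 : ℝ) ^ (Int.log 2 y) ≤ y := by
  have := Int.zpow_log_le_self (b := 2) (r := y) (by norm_num) hy
  exact_mod_cast this

theorem lt_log (y : ℝ) : y < 2 * (2 : ℝ) ^ (Int.log 2 y) := by
  have := Int.lt_zpow_succ_log_self (b := 2) (by norm_num) y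
  rw [Nat.cast_ofNat, zpow_add_one₀ (by norm_num)] at this
  linarith

theorem inv_le (y a : ℝ) (hy : 0 < y) (ha : 0 < a) (h : y ≤ 2 * a) (t : ℝ) (ht : 0 ≤ t) :
    t / a ≤ 2 * (t / y) := by
  rw [div_le_iff₀ ha, mul_assoc, div_mul_eq_mul_div, mul_div_assoc', le_div_iff₀ hy]
  nlinarith

theorem vert (hC : 0 ≤ C) (hG : Good C G) (x y y' : ℝ) (hy : 0 < y) (h1 : y ≤ y') (h2 : y' ≤ 2 * y) :
    dist (av G x y) (av G x y') ≤ C * (2 * ((y' - y) / y)) := by
  have hy' : 0 < y' := hy.trans_le h1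
  have ha : (0 : ℝ) < 2 ^ (Int.log 2 y) := by positivity
  have ha1 := log_le y hy
  have ha2 := lt_log y
  have hb1 := log_le y' hy'
  have hb2 := lt_log y'
  have hle : Int.log 2 y ≤ Int.log 2 y' := Int.log_mono_right hy h1
  have hlt : Int.log 2 y' < Int.log 2 y + 1 + 1 := by
    have h3 : (2 : ℝ) ^ (Int.log 2 y') < 2 ^ (Int.log 2 y + 1 + 1) := by
      rw [zpow_add_one₀ (by norm_num), zpow_add_one₀ (by norm_num)]
      linarith
    exact (zpow_lt_zpow_iff_right₀ (by norm_num)).1 h3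
  have hfin : C * ((y' - y) / 2 ^ (Int.log 2 y)) ≤ C * (2 * ((y' - y) / y)) :=
    mul_le_mul_of_nonneg_left (inv_le y _ hy ha ha2.le _ (by linarith)) hC
  refine le_trans ?_ hfin
  rcases (by omega : Int.log 2 y' = Int.log 2 y ∨ Int.log 2 y' = Int.log 2 y + 1) with e | e
  · unfold av
    rw [e]
    have := hG.lh (Int.log 2 y) ⌊x / 2 ^ (Int.log 2 y)⌋ (Int.fract (x / 2 ^ (Int.log 2 y)))
      (y / 2 ^ (Int.log 2 y) - 1) (y' / 2 ^ (Int.log 2 y) - 1)
    refine this.trans (le_of_eq ?_)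
    have h4 : (y' - y) / 2 ^ (Int.log 2 y) = (y' / 2 ^ (Int.log 2 y) - 1) - (y / 2 ^ (Int.log 2 y) - 1) := by
      ring
    have h5 : 0 ≤ (y' - y) / 2 ^ (Int.log 2 y) := div_nonneg (by linarith) ha.le
    rw [h4] at h5 ⊢
    rw [abs_sub_comm, abs_of_nonneg h5]
  · unfold av
    rw [e]
    rw [e] at hb1 hb2
    rw [zpow_add_one₀ (by norm_num)] at hb1 hb2 ⊢
    set a : ℝ := 2 ^ (Int.log 2 y) with hadef
    have hup := row_up hG (Int.log 2 y) (x / (a * 2))
    have hx : 2 * (x / (a * 2)) = x / a := by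
      field_simp
    rw [hx] at hup
    have e1 : dist (row G (Int.log 2 y) (x / a) (y / a - 1)) (row G (Int.log 2 y) (x / a) 1) ≤
        C * |(y / a - 1) - 1| := hG.lh _ _ _ _ _
    have e2 : dist (row G (Int.log 2 y + 1) (x / (a * 2)) 0)
        (row G (Int.log 2 y + 1) (x / (a * 2)) (y' / (a * 2) - 1)) ≤
        C * |0 - (y' / (a * 2) - 1)| := hG.lh _ _ _ _ _
    have e3 : |(y / a - 1) - 1| = 2 - y / a := by
      have : y / a ≤ 2 := by rw [div_le_iff₀ ha]; exact ha2.le
      rw [abs_of_nonpos (by linarith)]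
      ring
    have e4 : |0 - (y' / (a * 2) - 1)| = y' / (a * 2) - 1 := by
      have : 1 ≤ y' / (a * 2) := by rw [le_div_iff₀ (by positivity)]; linarith
      rw [abs_of_nonpos (by linarith)]
      ring
    rw [e3] at e1
    rw [e4, ← hup] at e2
    calc _ ≤ _ := dist_triangle _ _ _
      _ ≤ _ := add_le_add e1 e2
      _ = C * ((2 - y / a) + (y' / (a * 2) - 1)) := by ring
      _ ≤ C * ((y' - y) / a) := by
        apply mul_le_mul_of_nonneg_left _ hC
        have h6 : y' / (a * 2) = (y' / a) / 2 := by field_simp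
        have h7 : 2 ≤ y' / a := by rw [le_div_iff₀ ha]; linarith
        rw [h6, sub_div]
        linarith

theorem horiz (hC : 0 ≤ C) (hG : Good C G) (x x' y : ℝ) (hy : 0 < y) :
    dist (av G x y) (av G x' y) ≤ C * (2 * (|x - x'| / y)) := by
  have ha : (0 : ℝ) < 2 ^ (Int.log 2 y) := by positivity
  have ha2 := lt_log y
  have h1 := row_lip hG (Int.log 2 y) (y / 2 ^ (Int.log 2 y) - 1) (x / 2 ^ (Int.log 2 y))
    (x' / 2 ^ (Int.log 2 y))
  refine h1.trans ?_
  rw [← sub_div, abs_div, abs_of_pos ha]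
  exact mul_le_mul_of_nonneg_left (inv_le y _ hy ha ha2.le _ (abs_nonneg _)) hC

theorem exp_sub_one_le (d : ℝ) (h0 : 0 ≤ d) (h1 : d ≤ 1 / 2) : Real.exp d - 1 ≤ 2 * d := by
  have h2 := Real.exp_bound_div_one_sub_of_interval h0 (by linarith)
  have h3 : 1 / (1 - d) ≤ 1 + 2 * d := by
    rw [div_le_iff₀ (by linarith)]
    nlinarith
  linarith

theorem main (hC : 0 ≤ C) (hG : Good C G) (z w : ℍ) (hzw : z.im ≤ w.im) (hd : dist z w ≤ 1 / 2) :
    dist (asm G z) (asm G w) ≤ 8 * C * dist z w := by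
  have hz := z.im_pos
  have hw := w.im_pos
  have h1 := UpperHalfPlane.dist_coe_le w z
  rw [dist_comm w z] at h1
  have h2 := exp_sub_one_le (dist z w) dist_nonneg hd
  have h3 : dist (w : ℂ) z ≤ z.im * (2 * dist z w) :=
    h1.trans (mul_le_mul_of_nonneg_left h2 hz.le)
  rw [Complex.dist_eq] at h3
  have h4 : |w.re - z.re| ≤ z.im * (2 * dist z w) := by
    have := Complex.abs_re_le_norm ((w : ℂ) - z)
    rw [Complex.sub_re] at this
    exact this.trans h3
  have h5 : |w.im - z.im| ≤ z.im * (2 * dist z w) := by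
    have := Complex.abs_im_le_norm ((w : ℂ) - z)
    rw [Complex.sub_im] at this
    exact this.trans h3
  rw [abs_of_nonneg (by linarith)] at h5
  have h6 : z.im * (2 * dist z w) ≤ z.im := by
    have : z.im * (2 * dist z w) ≤ z.im * 1 := mul_le_mul_of_nonneg_left (by linarith) hz.le
    linarith
  have e1 := vert hC hG z.re z.im w.im hz hzw (by linarith)
  have e2 := horiz hC hG z.re w.re w.im hw
  have e3 : (w.im - z.im) / z.im ≤ 2 * dist z w := by
    rw [div_le_iff₀ hz]; linarith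
  have e4 : |z.re - w.re| / w.im ≤ 2 * dist z w := by
    rw [div_le_iff₀ hw, abs_sub_comm]
    refine h4.trans ?_
    rw [mul_comm]
    exact mul_le_mul_of_nonneg_left hzw (by positivity)
  rw [asm_eq, asm_eq]
  calc _ ≤ _ := dist_triangle _ (av G z.re w.im) _
    _ ≤ _ := add_le_add e1 e2
    _ ≤ C * (2 * (2 * dist z w)) + C * (2 * (2 * dist z w)) := by
      apply add_le_add <;> apply mul_le_mul_of_nonneg_left _ hC <;> linarith
    _ = 8 * C * dist z w := by ring

end AsmT

theorem taskAsm : TaskAsm := by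
  intro S _ C Δ hC hΔ
  refine ⟨8 * C + 2 * |Δ|, ?_⟩
  intro G hG z w
  have hd : 0 ≤ dist z w := dist_nonneg
  by_cases h : dist z w ≤ 1 / 2
  · have h1 : dist (asm G z) (asm G w) ≤ 8 * C * dist z w := by
      rcases le_total z.im w.im with h2 | h2
      · exact AsmT.main hC hG z w h2 h
      · rw [dist_comm, dist_comm z w]
        rw [dist_comm] at h
        exact AsmT.main hC hG w z h2 h
    have h2 : 0 ≤ 2 * |Δ| * dist z w := by positivity
    linarith
  · push Not at h
    have h1 := hΔ (asm G z) (asm G w)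
    have h2 : Δ ≤ |Δ| := le_abs_self Δ
    have h3 : |Δ| * 1 ≤ |Δ| * (2 * dist z w) := mul_le_mul_of_nonneg_left (by linarith) (abs_nonneg _)
    have h4 : 0 ≤ 8 * C * dist z w := by positivity
    linarith

end Pool.Agent.H261R3.LH
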